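import Pool.Agent.H90.G.S8.W534.Rank

/-!
# Algebraic correspondences between two varieties as operators
-/

open CategoryTheory AlgebraicGeometry Finset

universe u v

namespace Pool.Agent.W534

open Pool.Agent.H914 Pool.Agent.H447 VarClass Obj WeilCohomology

variable {k : Type u} [Field k] {𝒱 : VarClass k} {ops : CycleOps 𝒱}

/-- The operators of degree `d` from `H(X)` to `H(Y)` induced by algebraic correspondences with
rational coefficients. -/
def QOp (W : WeilCohomology.{u, v} ops) (X Y : 𝒱.Obj) (d : ℤ) (φ : W.H X →ₗ[W.K] W.H Y) : Prop :=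
  (∃ p : ℕ, (p : ℤ) = X.dim + d ∧ ∃ z, (X.prod Y).IsCyc p z ∧ W.corr (W.cl _ z) = φ) ∨
    ((X.dim : ℤ) + d < 0 ∧ φ = 0)

variable {W : WeilCohomology.{u, v} ops} {X Y Z : 𝒱.Obj} {d e : ℤ}

namespace QOp

lemma kop {φ : W.H X →ₗ[W.K] W.H Y} (h : QOp W X Y d φ) : φ ∈ KOp W X Y d := by
  rcases h with ⟨p, hp, z, hz, rfl⟩ | ⟨_, rfl⟩
  · exact KOp.gen hp hz
  · exact Submodule.zero_mem _

lemma cast {φ : W.H X →ₗ[W.K] W.H Y} (h : QOp W X Y d φ) (hde : d = e) : QOp W X Y e φ := hde ▸ h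

lemma gen {p : ℕ} (hp : (p : ℤ) = X.dim + d) {z : (X.prod Y).Cycles} (hz : (X.prod Y).IsCyc p z) :
    QOp W X Y d (W.corr (W.cl _ z)) := Or.inl ⟨p, hp, z, hz, rfl⟩

lemma exists_cyc {φ : W.H X →ₗ[W.K] W.H Y} (h : QOp W X Y d φ) {p : ℕ}
    (hp : (p : ℤ) = X.dim + d) : ∃ z, (X.prod Y).IsCyc p z ∧ W.corr (W.cl _ z) = φ := by
  rcases h with ⟨q, hq, z, hz, h⟩ | ⟨h, _⟩
  · obtain rfl : q = p := by omega
    exact ⟨z, hz, h⟩
  · omega

lemma zero (d : ℤ) : QOp W X Y d 0 := by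
  by_cases hd : (X.dim : ℤ) + d < 0
  · exact Or.inr ⟨hd, rfl⟩
  · refine Or.inl ⟨(X.dim + d).toNat, by omega, 0, SmVar.IsCyc.zero _ _, ?_⟩
    rw [map_zero, corr_zero]

lemma add {φ ψ : W.H X →ₗ[W.K] W.H Y} (h : QOp W X Y d φ) (h' : QOp W X Y d ψ) :
    QOp W X Y d (φ + ψ) := by
  by_cases hd : (X.dim : ℤ) + d < 0
  · rcases h with ⟨p, hp, -⟩ | ⟨-, rfl⟩
    · omega
    rcases h' with ⟨p, hp, -⟩ | ⟨-, rfl⟩
    · omega
    exact Or.inr ⟨hd, add_zero _⟩
  · obtain ⟨z, hz, rfl⟩ := h.exists_cyc (p := (X.dim + d).toNat) (by omega)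
    obtain ⟨w, hw, rfl⟩ := h'.exists_cyc (p := (X.dim + d).toNat) (by omega)
    refine Or.inl ⟨_, by omega, z + w, hz.add hw, ?_⟩
    rw [map_add, corr_add]

lemma smul (q : ℚ) {φ : W.H X →ₗ[W.K] W.H Y} (h : QOp W X Y d φ) :
    QOp W X Y d ((q : W.K) • φ) := by
  rcases h with ⟨p, hp, z, hz, rfl⟩ | ⟨hd, rfl⟩
  · refine Or.inl ⟨p, hp, q • z, hz.smul q, ?_⟩
    rw [cl_smul, corr_smul]
  · exact Or.inr ⟨hd, smul_zero _⟩

lemma sum {ι : Type*} {s : Finset ι} {F : ι → (W.H X →ₗ[W.K] W.H Y)}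
    (h : ∀ i ∈ s, QOp W X Y d (F i)) : QOp W X Y d (∑ i ∈ s, F i) := by
  classical
  induction s using Finset.induction_on with
  | empty => rw [Finset.sum_empty]; exact zero d
  | insert a s ha ih =>
    rw [Finset.sum_insert ha]
    exact (h a (by simp)).add (ih (fun i hi => h i (by simp [hi])))

lemma comp {φ : W.H X →ₗ[W.K] W.H Y} {ψ : W.H Y →ₗ[W.K] W.H Z}
    (hψ : QOp W Y Z e ψ) (hφ : QOp W X Y d φ) : QOp W X Z (d + e) (ψ ∘ₗ φ) := by
  by_cases hde : (X.dim : ℤ) + (d + e) < 0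
  · refine Or.inr ⟨hde, ?_⟩
    apply gr_ext (W.isInternal X)
    intro i a ha
    have h1 := KOp.isHom hφ.kop i a (by rw [grZ_natCast]; exact ha)
    have h2 := KOp.isHom hψ.kop _ _ h1
    by_cases hi : 2 * X.dim < i
    · rw [W.gr_eq_bot X i hi] at ha
      rw [(Submodule.mem_bot _).1 ha, map_zero, map_zero]
    · rw [grZ_of_neg (by omega)] at h2
      rw [LinearMap.comp_apply, LinearMap.zero_apply]
      exact (Submodule.mem_bot _).1 h2
  · rcases hψ with ⟨q, hq, w, hw, rfl⟩ | ⟨_, rfl⟩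
    · rcases hφ with ⟨p, hp, z, hz, rfl⟩ | ⟨_, rfl⟩
      · rw [← corr_compCyc W hw]
        exact gen (p := (X.dim + (d + e)).toNat) (by omega) (compCyc_mem hz hw (by omega))
      · rw [LinearMap.comp_zero]; exact zero _
    · rw [LinearMap.zero_comp]; exact zero _

end QOp

lemma rop_iff {y : Module.End W.K (W.H X)} : ROp W X d y ↔ QOp W X X d y := by
  constructor
  · rintro ⟨Y, ⟨q, hq, z, hz, hY⟩ | ⟨hd, hY⟩, rfl⟩
    · exact Or.inl ⟨q, hq, z, hz, (hY W).symm⟩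
    · exact Or.inr ⟨hd, hY W⟩
  · rintro (⟨q, hq, z, hz, rfl⟩ | ⟨hd, rfl⟩)
    · exact rop_corr hq hz
    · exact rop_opAlg.zero _

/-- The transpose of the graph of a morphism induces the pull-back. -/
lemma corr_graph (i : Y ⟶ X) :
    W.corr (W.cl _ (ops.push (Obj.lift i (𝟙 Y)) Y.V.fundCycle)) = (W.map i).toLinearMap := by
  apply LinearMap.ext
  intro a
  rw [corr_apply, W.cl_push, W.cl_fund, ← W.push_mul, one_mul, ← W.map_comp, ← W.push_comp,
    Obj.lift_fst, Obj.lift_snd, W.push_id]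
  rfl

lemma qop_pull (i : Y ⟶ X) : QOp W X Y 0 (W.map i).toLinearMap := by
  rw [← corr_graph (W := W) i]
  exact QOp.gen (p := X.dim) (by simp) (ops.push_mem _ Y.V.fundCycle_mem (by
    rw [dim_prod, zero_add]))

/-- The graph of a morphism induces the push-forward. -/
lemma corr_graph' (i : Y ⟶ X) :
    W.corr (W.cl _ (ops.push (Obj.lift (𝟙 Y) i) Y.V.fundCycle)) = W.push i := by
  apply LinearMap.ext
  intro a
  rw [corr_apply, W.cl_push, W.cl_fund, ← W.push_mul, one_mul, ← W.map_comp, ← W.push_comp,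
    Obj.lift_fst, Obj.lift_snd, W.map_id]

lemma qop_push (i : Y ⟶ X) : QOp W Y X ((X.dim : ℤ) - Y.dim) (W.push i) := by
  rw [← corr_graph' (W := W) i]
  exact QOp.gen (p := X.dim) (by ring) (ops.push_mem _ Y.V.fundCycle_mem (by
    rw [dim_prod, zero_add, add_comm]))

lemma corr_fst' (ξ : W.H X) (c : W.H (X.prod Y)) {p : ℕ} (hξ : ξ ∈ W.gr X (2 * p)) :
    W.corr (W.map (fst X Y) ξ * c) = W.corr c ∘ₗ LinearMap.mulLeft W.K ξ := by
  apply LinearMap.ext
  intro a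
  rw [corr_apply, LinearMap.comp_apply, LinearMap.mulLeft_apply, corr_apply,
    W.even_comm (W.map_mem _ hξ), mul_assoc, ← map_mul (W.map (fst X Y))]

lemma corr_snd' (ξ : W.H Y) (c : W.H (X.prod Y)) {p : ℕ} (hξ : ξ ∈ W.gr Y (2 * p)) :
    W.corr (W.map (snd X Y) ξ * c) = LinearMap.mulLeft W.K ξ ∘ₗ W.corr c := by
  apply LinearMap.ext
  intro a
  rw [corr_apply, LinearMap.comp_apply, LinearMap.mulLeft_apply, corr_apply, mul_assoc,
    ← W.mul_push _ hξ]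

lemma corr_sub'' (c d : W.H (X.prod Y)) : W.corr (c - d) = W.corr c - W.corr d := by
  rw [eq_sub_iff_add_eq, ← corr_add, sub_add_cancel]

lemma corr_neg'' (c : W.H (X.prod Y)) : W.corr (-c) = - W.corr c := by
  have := corr_sub'' (W := W) 0 c
  rwa [corr_zero, zero_sub, zero_sub] at this

end Pool.Agent.W534
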