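import Pool.Agent.H90.G.S8.H447R3.AoC
import Pool.Agent.H90.G.S8.H914R2.LefB

/-!
# Ranks of spans of algebraic classes and surjectivity of Lefschetz operators
-/

open CategoryTheory AlgebraicGeometry Finset

universe u v

namespace Pool.Agent.W534

open Pool.Agent.H914 Pool.Agent.H447 VarClass Obj WeilCohomology

section Lin

variable {K V V' : Type*} [Field K] [AddCommGroup V] [Module K V] [AddCommGroup V'] [Module K V']

lemma surj_of_finrank_eq [Module.Finite K V] [Module.Finite K V'] {A : Submodule K V}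
    {B : Submodule K V'} {T : V →ₗ[K] V'} (hT : ∀ x ∈ A, T x ∈ B)
    (hinj : ∀ x ∈ A, T x = 0 → x = 0)
    (hr : Module.finrank K A = Module.finrank K B) : ∀ y ∈ B, ∃ x ∈ A, T x = y := by
  have hle : A.map T ≤ B := by
    rintro _ ⟨x, hx, rfl⟩
    exact hT x hx
  have hf : Module.finrank K (A.map T) = Module.finrank K A := by
    have hker : LinearMap.ker (T.domRestrict A) = ⊥ := by
      rw [LinearMap.ker_eq_bot']
      rintro ⟨x, hx⟩ h0
      exact Subtype.ext (hinj x hx h0)
    have h1 := LinearMap.finrank_range_of_inj (LinearMap.ker_eq_bot.1 hker)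
    rw [LinearMap.range_domRestrict] at h1
    exact h1
  have heq := Submodule.eq_of_le_of_finrank_eq hle (hf.trans hr)
  intro y hy
  rw [← heq] at hy
  exact hy

lemma finrank_eq_of_surj [Module.Finite K V] [Module.Finite K V'] {A : Submodule K V}
    {B : Submodule K V'} {T : V →ₗ[K] V'} (hT : ∀ x ∈ A, T x ∈ B)
    (hinj : ∀ x ∈ A, T x = 0 → x = 0) (hs : ∀ y ∈ B, ∃ x ∈ A, T x = y) :
    Module.finrank K A = Module.finrank K B := by
  have heq : A.map T = B := by
    apply le_antisymm
    · rintro _ ⟨x, hx, rfl⟩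
      exact hT x hx
    · intro y hy
      obtain ⟨x, hx, rfl⟩ := hs y hy
      exact ⟨x, hx, rfl⟩
  have hker : LinearMap.ker (T.domRestrict A) = ⊥ := by
    rw [LinearMap.ker_eq_bot']
    rintro ⟨x, hx⟩ h0
    exact Subtype.ext (hinj x hx h0)
  have h1 := LinearMap.finrank_range_of_inj (LinearMap.ker_eq_bot.1 hker)
  rw [LinearMap.range_domRestrict, heq] at h1
  exact h1.symm

end Lin

variable {k : Type u} [Field k] {𝒱 : VarClass k} {ops : CycleOps 𝒱}
  {W : WeilCohomology.{u, v} ops} {X Y Z : 𝒱.Obj}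

/-- The linear map from the classes on the product to the operators. -/
noncomputable def corrL (W : WeilCohomology.{u, v} ops) (X Y : 𝒱.Obj) :
    W.H (X.prod Y) →ₗ[W.K] (W.H X →ₗ[W.K] W.H Y) :=
  ⟨⟨fun c => W.corr c, fun c d => W.corr_add c d⟩, fun q c => W.corr_smul q c⟩

lemma corrL_apply (c : W.H (X.prod Y)) : corrL W X Y c = W.corr c := rfl

lemma corrL_injective : Function.Injective (corrL W X Y) := by
  rw [← LinearMap.ker_eq_bot, LinearMap.ker_eq_bot']
  intro c hc
  exact corr_inj hc

lemma KOp_eq_map (d : ℤ) :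
    KOp W X Y d = (spanCycles W (X.prod Y) (X.dim + d)).map (corrL W X Y) := by
  ext φ
  rw [mem_KOp_iff]
  rfl

lemma finrank_KOp (d : ℤ) : Module.finrank W.K (KOp W X Y d) =
    Module.finrank W.K (spanCycles W (X.prod Y) (X.dim + d)) := by
  rw [KOp_eq_map]
  exact ((spanCycles W (X.prod Y) (X.dim + d)).equivMapOfInjective _
    corrL_injective).finrank_eq.symm

end Pool.Agent.W534
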